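import Pool.Agent.Nm65.Z472

/-!
MP_50671f, both questions, in ZFC, for every ideal `J` on the natural numbers.

For sequences `c`, `d` in `OmegaBar` write `c ≤_J d` if `c n ⊆ d n` for all `n` outside a set
of `J`.

The order `≤_J` is Tukey reducible to `(N_J, ⊆)`, by two maps which do not depend on `J`.
So `add (N_J)` and `cof (N_J)` are the least sizes of an unbounded and of a dominating family
of `≤_J`, and for `J ⊆ K` (in particular for `K = J`) the additivity of `N_J` is at most the
additivities of `N_K` and of `N*_K`, and the cofinality of `N_J` is at least the cofinalities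
of `N_K` and of `N*_K`.
-/

namespace Pool.Agent.Results.MP_50671f_lc.Comparison

open Pool.Agent.Nm65 Pool.Agent.Nm65.Z72 Set Cardinal

theorem result :
    ∃ phi psi : (ℕ → Set Cantor) → (ℕ → Set Cantor),
      (∀ c, OmegaBar c → OmegaBar (phi c)) ∧ (∀ d, OmegaBar d → OmegaBar (psi d)) ∧
      ∀ J, IsIdeal J →
        (∀ c d, OmegaBar c → OmegaBar d → NJ J (phi c) ⊆ NJ J d → LeJ J c (psi d)) ∧
        add (calN J) = bJ J ∧ cof (calN J) = dJ J ∧
        ∀ K, IsIdeal K → J ⊆ K →
          add (calN J) ≤ add (calN K) ∧ add (calN J) ≤ add (calNs K) ∧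
          cof (calN K) ≤ cof (calN J) ∧ cof (calNs K) ≤ cof (calN J) := by
  obtain ⟨phi, psi, hphi, hpsi, hZ⟩ := thmZ
  refine ⟨phi, psi, hphi, hpsi, fun J hJ => ⟨hZ J hJ, add_eq_bJ hJ, cof_eq_dJ hJ, ?_⟩⟩
  intro K hK hJK
  exact ⟨add_mono hJ hK hJK, (add_mono hJ hK hJK).trans (add_le_adds hK), cof_anti hJ hK hJK,
    (cofs_le_cof hK).trans (cof_anti hJ hK hJK)⟩

end Pool.Agent.Results.MP_50671f_lc.Comparison
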