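import Pool.Agent.Sc72.Sane
import Pool.Agent.Sc72.PQ
import Pool.Agent.Fo65.FinG

/-!
MP_50671f, question Q2: it is consistent that `cof (N_J)` and `cof (N*_J)` differ for a non-meager
ideal `J`.  Adding at least `aleph_2` Cohen reals (to any model) forces this.

`phi2 B` (file `Pool/Agent/Sc72/Defs.lean`) is defined for every complete Boolean algebra `B`: it
is the truth value in `B` of the statement that there is a non-meager ideal `J` with
`cof (N*_J) < cof (N_J)`, in the Boolean-valued third-order arithmetic of D. Scott.  That is: a
subset of `T` of the extension is a map from `T` to `B`; a set of such objects, and a relation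
between them, is a map to `B` which respects Boolean-valued equality; so the ideal `J`, the family
`F` and the maps `H` with the help of which cardinals are compared are arbitrary elements of the
extension.

The first part says that for the two-element algebra `Prop` this is the statement of the problem.
The second part says that for the algebra of the regular open subsets of `I → ℕ → ℕ` (product of
discrete spaces), the Cohen algebra, `I` a set with at least `aleph_2` elements, the truth value
is the largest element.
-/

namespace Pool.Agent.Results.MP_50671f_lc.Question2

open Pool.Agent.Nm65 Pool.Agent.Fo65 Pool.Agent.Sc72 Cardinal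

theorem result :
    (phi2 Prop ↔
      ∃ J : Set (Set ℕ), IsIdeal J ∧ NonMeager J ∧ cof (calN J) ≠ cof (calNs J)) ∧
    ∀ I : Type, ℵ_ 2 ≤ #I →
      Nontrivial (RO (I → ℕ → ℕ)) ∧ phi2 (RO (I → ℕ → ℕ)) = ⊤ := by
  refine ⟨phi2_prop, fun I hI => ⟨inferInstance, ?_⟩⟩
  obtain ⟨J, h1, h2, h3, h4⟩ := forced_q2_all hI
  exact phi2_of h1 h2 h3 h4

end Pool.Agent.Results.MP_50671f_lc.Question2
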